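import Pool.Agent.H84.SF.Geo

/-!
# FRE: frames exist at the points of `D` where `D` and `Y` are smooth
-/

set_option autoImplicit false

namespace Pool.Agent.H37.SF

open Pool.Agent.H84.SF
open MvPolynomial SC

section

variable {k F σ : Type} [Field k] [Field F] [Algebra k F]

/-- the gradient at `s` -/
noncomputable def gr (s : σ → k) (f : MvPolynomial σ k) : σ → k := fun i => eval s (pderiv i f)

theorem gr_sum (s : σ → k) {ι : Type} (t : Finset ι) (f : ι → MvPolynomial σ k) :
    gr s (∑ j ∈ t, f j) = ∑ j ∈ t, gr s (f j) := by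
  funext i
  simp [gr, map_sum]

theorem derc [Fintype σ] (D : Derivation k F F) (x : σ → F) (P : MvPolynomial σ k) :
    D (aeval x P) = ∑ i, aeval x (pderiv i P) * D (x i) := by
  classical
  induction P using MvPolynomial.induction_on with
  | C a =>
    rw [algHom_C, D.map_algebraMap]
    simp
  | add p q hp hq =>
    simp only [map_add, hp, hq, add_mul, Finset.sum_add_distrib]
  | mul_X p s hp =>
    simp only [map_mul, aeval_X, Derivation.leibniz, smul_eq_mul, hp, map_add, pderiv_X,
      add_mul, Finset.sum_add_distrib]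
    congr 1
    · rw [Finset.sum_eq_single s]
      · simp
      · intro j _ hj
        rw [Pi.single_eq_of_ne' hj]
        simp
      · simp
    · rw [Finset.mul_sum]
      refine Finset.sum_congr rfl fun i _ => ?_
      ring

theorem det_spec [Fintype σ] [DecidableEq σ] {Xc : σ → F} {s : σ → k} (hC : Cone Xc s)
    (W : Matrix σ σ (MvPolynomial σ k))
    (h : (W.map (eval s)).det ≠ 0) : (W.map (aeval Xc)).det ≠ 0 := by
  intro h0
  apply h
  have e1 : (W.map (aeval Xc)).det = aeval Xc W.det := by
    have := RingHom.map_det (aeval Xc : MvPolynomial σ k →ₐ[k] F).toRingHom W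
    exact this.symm
  have e2 : (W.map (eval s)).det = eval s W.det := (RingHom.map_det (eval s) W).symm
  rw [e2]
  rw [e1] at h0
  exact hC.pt _ h0

theorem indF [Fintype σ] [DecidableEq σ] {Xc : σ → F} {s : σ → k} (hC : Cone Xc s)
    {b : Set (σ → k)} (hli : LinearIndependent k (Subtype.val : b → σ → k))
    (f : b → MvPolynomial σ k) (hf : ∀ v, gr s (f v) = v) :
    LinearIndependent F (fun v : b => fun i => aeval Xc (pderiv i (f v))) := by
  classical
  have hl : LinearIndepOn k id b := hli
  let B := Module.Basis.extend hl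
  haveI : Fintype (hl.extend (Set.subset_univ b)) := Module.Basis.fintypeIndexOfRankLtAleph0 B
    (Module.rank_lt_aleph0 _ _)
  have hcard : Fintype.card σ = Fintype.card (hl.extend (Set.subset_univ b)) := by
    rw [← Module.finrank_eq_card_basis B, Module.finrank_fintype_fun_eq_card]
  let e : σ ≃ (hl.extend (Set.subset_univ b)) := Fintype.equivOfCardEq hcard
  let W : Matrix σ σ (MvPolynomial σ k) := fun i j =>
    if h : ((e i : (hl.extend (Set.subset_univ b))) : σ → k) ∈ b then pderiv j (f ⟨e i, h⟩)
    else C (((e i : (hl.extend (Set.subset_univ b))) : σ → k) j)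
  have hW : ∀ i j, eval s (W i j) = ((e i : (hl.extend (Set.subset_univ b))) : σ → k) j := by
    intro i j
    show eval s (if h : _ then _ else _) = _
    split_ifs with h
    · exact congrFun (hf ⟨e i, h⟩) j
    · rw [eval_C]
  have h1 : (W.map (eval s)).det ≠ 0 := by
    have h2 : LinearIndependent k (W.map (eval s)).row := by
      have h3 : (W.map (eval s)).row = fun i => ((e i : (hl.extend (Set.subset_univ b))) : σ → k) := by
        funext i j
        exact hW i j
      rw [h3]
      have h4 := B.linearIndependent.comp e e.injective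
      have h5 : (B : (hl.extend (Set.subset_univ b)) → (σ → k)) = Subtype.val := by
        exact Module.Basis.coe_extend hl
      rw [h5] at h4
      exact h4
    rw [Matrix.linearIndependent_rows_iff_isUnit, Matrix.isUnit_iff_isUnit_det] at h2
    exact h2.ne_zero
  have h2 := det_spec hC W h1
  have h3 : LinearIndependent F (W.map (aeval Xc)).row := by
    rw [Matrix.linearIndependent_rows_iff_isUnit, Matrix.isUnit_iff_isUnit_det]
    exact isUnit_iff_ne_zero.2 h2
  have h4 := h3.comp (fun v : b => e.symm ⟨v, hl.subset_extend (Set.subset_univ b) v.2⟩) (by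
    intro v w hvw
    have h4 := e.symm.injective hvw
    exact Subtype.ext (Subtype.mk_eq_mk.1 h4))
  have h5 : ((W.map (aeval Xc)).row ∘ fun v : b =>
      e.symm ⟨v, hl.subset_extend (Set.subset_univ b) v.2⟩) =
      fun v : b => fun i => aeval Xc (pderiv i (f v)) := by
    funext v j
    show aeval Xc (W (e.symm ⟨v, hl.subset_extend (Set.subset_univ b) v.2⟩) j) = _
    congr 1
    show (if h : _ then _ else _) = _
    have h6 : ((e (e.symm ⟨v, hl.subset_extend (Set.subset_univ b) v.2⟩) :
        (hl.extend (Set.subset_univ b))) : σ → k) = v := by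
      rw [e.apply_symm_apply]
    rw [dif_pos (by rw [h6]; exact v.2)]
    have h7 : (⟨((e (e.symm ⟨v, hl.subset_extend (Set.subset_univ b) v.2⟩) :
        (hl.extend (Set.subset_univ b))) : σ → k), by rw [h6]; exact v.2⟩ : b) = v :=
      Subtype.ext h6
    rw [h7]
  rw [h5] at h4
  exact h4

end

theorem pf_FRE : T_FRE := by
  intro k F σ _ _ _ _ _ _ Xc s dd G m hC hs hdd hm hG hGs hT
  classical
  let I : Set (σ → k) := {v | ∃ (f : MvPolynomial σ k) (d : ℕ), f.IsHomogeneous d ∧
    aeval Xc f = 0 ∧ gr s f = v}
  obtain ⟨b, hbI, hspan, hli⟩ := exists_linearIndependent k I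
  haveI : Fintype b := (LinearIndependent.setFinite hli).fintype
  choose f d hfd hf0 hfg using fun v : b => hbI v.2
  -- rank over `F`
  have hA := indF hC hli f hfg
  let A : Matrix b σ F := fun v i => aeval Xc (pderiv i (f v))
  let B : Matrix σ (Fin 3) F := fun i l => dd l (Xc i)
  have hAB : A * B = 0 := by
    ext v l
    rw [Matrix.mul_apply]
    show ∑ i, aeval Xc (pderiv i (f v)) * dd l (Xc i) = 0
    rw [← derc, hf0, map_zero]
  have hAr : A.rank = Fintype.card b := LinearIndependent.rank_matrix hA
  have hBr : B.rank = 3 := by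
    rw [← Matrix.rank_transpose]
    have h1 : LinearIndependent F B.transpose.row := hdd
    rw [LinearIndependent.rank_matrix h1, Fintype.card_fin]
  have hr3 : Fintype.card b + 3 ≤ Fintype.card σ := by
    rw [← hAr, ← hBr]
    exact Matrix.rank_add_rank_le_card_of_mul_eq_zero hAB
  -- the matrix `M`
  let M : Matrix (b ⊕ Unit) σ k := fun x i =>
    Sum.elim (fun v : b => (v : σ → k)) (fun _ => gr s G) x i
  have hker : LinearMap.ker M.mulVecLin = Tng Xc s G := by
    ext y
    rw [LinearMap.mem_ker, Matrix.mulVecLin_apply]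
    constructor
    · intro hy
      have h1 : ∀ x, ∑ i, M x i * y i = 0 := fun x => congrFun hy x
      refine ⟨?_, h1 (Sum.inr ())⟩
      have h2 : ∀ v ∈ Submodule.span k I, ∑ i, v i * y i = 0 := by
        intro v hv
        rw [← hspan] at hv
        induction hv using Submodule.span_induction with
        | mem v hv => exact h1 (Sum.inl ⟨v, hv⟩)
        | zero => simp
        | add a c _ _ h3 h4 =>
          simp only [Pi.add_apply, add_mul, Finset.sum_add_distrib]
          rw [h3, h4, add_zero]
        | smul c a _ h3 =>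
          simp only [Pi.smul_apply, smul_eq_mul, mul_assoc]
          rw [← Finset.mul_sum, h3, mul_zero]
      intro g hg
      apply h2 (gr s g)
      have h3 : gr s g = ∑ j ∈ Finset.range (g.totalDegree + 1),
          gr s (homogeneousComponent j g) := by
        rw [← gr_sum, sum_homogeneousComponent]
      rw [h3]
      refine Submodule.sum_mem _ fun j _ => Submodule.subset_span ?_
      exact ⟨_, j, homogeneousComponent_isHomogeneous j g, hC.hom g j hg, rfl⟩
    · rintro ⟨h1, h2⟩
      funext x
      show ∑ i, M x i * y i = 0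
      rcases x with v | _
      · have h3 := h1 (f v) (hf0 v)
        have h4 : ∀ i, M (Sum.inl v) i = eval s (pderiv i (f v)) := by
          intro i
          exact (congrFun (hfg v) i).symm
        rw [Finset.sum_congr rfl fun i _ => by rw [h4 i]]
        exact h3
      · exact h2
  have hrk : M.rank + Module.finrank k (Tng Xc s G) = Fintype.card σ := by
    rw [← hker, Matrix.rank, LinearMap.finrank_range_add_finrank_ker,
      Module.finrank_fintype_fun_eq_card]
  have hMle : M.rank ≤ Fintype.card b + 1 := by
    have := Matrix.rank_le_card_height M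
    rw [Fintype.card_sum, Fintype.card_unit] at this
    exact this
  have hn : Fintype.card σ = Fintype.card b + 3 := by omega
  have hMr : M.rank = Fintype.card b + 1 := by omega
  have hT2 : Module.finrank k (Tng Xc s G) = 2 := by omega
  have hMli : LinearIndependent k M.row := by
    rw [linearIndependent_iff_card_eq_finrank_span, Fintype.card_sum, Fintype.card_unit, ← hMr,
      Matrix.rank_eq_finrank_span_row, Set.finrank]
  -- Euler
  have eul : ∀ (g : MvPolynomial σ k) (e : ℕ), g.IsHomogeneous e → eval s g = 0 →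
      ∑ i, eval s (pderiv i g) * s i = 0 := by
    intro g e hg h0
    have h1 := congrArg (eval s) hg.sum_X_mul_pderiv
    rw [map_sum, nsmul_eq_mul, map_mul, h0, mul_zero] at h1
    rw [← h1]
    refine Finset.sum_congr rfl fun i _ => ?_
    rw [map_mul, eval_X, mul_comm]
  have hsT : s ∈ Tng Xc s G := by
    rw [← hker, LinearMap.mem_ker, Matrix.mulVecLin_apply]
    funext x
    show ∑ i, M x i * s i = 0
    rcases x with v | _
    · have h4 : ∀ i, M (Sum.inl v) i = eval s (pderiv i (f v)) := by
        intro i
        exact (congrFun (hfg v) i).symm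
      rw [Finset.sum_congr rfl fun i _ => by rw [h4 i]]
      exact eul _ _ (hfd v) (hC.pt _ (hf0 v))
    · exact eul _ _ hG hGs
  obtain ⟨i0, hi0⟩ : ∃ i, s i ≠ 0 := by
    by_contra h
    push Not at h
    exact hs (funext h)
  obtain ⟨y, hyT, hys⟩ : ∃ y ∈ Tng Xc s G, y ∉ Submodule.span k {s} := by
    by_contra h
    push Not at h
    have h1 := Submodule.finrank_mono (s := Tng Xc s G) (t := Submodule.span k {s}) h
    have h2 := finrank_span_singleton (K := k) hs
    rw [h2, hT2] at h1
    norm_num at h1
  let y' : σ → k := y - (y i0 / s i0) • s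
  have hy'T : y' ∈ Tng Xc s G := Submodule.sub_mem _ hyT (Submodule.smul_mem _ _ hsT)
  have hy'0 : y' i0 = 0 := by
    show y i0 - (y i0 / s i0) * s i0 = 0
    rw [div_mul_cancel₀ _ hi0, sub_self]
  obtain ⟨i1, hi1⟩ : ∃ i, y' i ≠ 0 := by
    by_contra h
    push Not at h
    apply hys
    have h1 : y' = 0 := funext h
    rw [Submodule.mem_span_singleton]
    exact ⟨y i0 / s i0, (sub_eq_zero.1 h1).symm⟩
  -- the linear forms
  let c : k := s i1 / s i0
  let L0 : MvPolynomial σ k := X i0
  let L1 : MvPolynomial σ k := X i1 - C c * X i0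
  have gL0 : ∀ z : σ → k, ∑ i, eval s (pderiv i L0) * z i = z i0 := by
    intro z
    rw [Finset.sum_eq_single i0]
    · show eval s (pderiv i0 (X i0)) * z i0 = z i0
      simp
    · intro j _ hj
      show eval s (pderiv j (X i0)) * z j = 0
      rw [pderiv_X_of_ne hj.symm]
      simp
    · simp
  have gL1 : ∀ z : σ → k, ∑ i, eval s (pderiv i L1) * z i = z i1 - c * z i0 := by
    intro z
    have h1 : ∀ i, eval s (pderiv i L1) * z i =
        eval s (pderiv i (X i1)) * z i - c * (eval s (pderiv i (X i0)) * z i) := by
      intro i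
      show eval s (pderiv i (X i1 - C c * X i0)) * z i = _
      rw [map_sub, pderiv_C_mul, map_sub, map_mul, eval_C]
      ring
    rw [Finset.sum_congr rfl fun i _ => h1 i, Finset.sum_sub_distrib, ← Finset.mul_sum, gL0 z]
    congr 1
    rw [Finset.sum_eq_single i1]
    · simp
    · intro j _ hj
      rw [pderiv_X_of_ne hj.symm]
      simp
    · simp
  have hL0 : L0.IsHomogeneous 1 := isHomogeneous_X _ _
  have hL1 : L1.IsHomogeneous 1 := (isHomogeneous_X _ _).sub (by
    have := (isHomogeneous_C σ c).mul (isHomogeneous_X k i0)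
    rwa [zero_add] at this)
  let Q : b ⊕ Fin 3 → MvPolynomial σ k := Sum.elim f ![L0, L1, G]
  have hQ : LinearIndependent k (fun x => gr s (Q x)) := by
    rw [Fintype.linearIndependent_iff]
    intro g hg
    rw [Fintype.sum_sum_type, Fin.sum_univ_three] at hg
    have hg' : ∑ v : b, g (Sum.inl v) • gr s (f v) + (g (Sum.inr 0) • gr s L0 +
      g (Sum.inr 1) • gr s L1 + g (Sum.inr 2) • gr s G) = 0 := hg
    have dot : ∀ z : σ → k, z ∈ Tng Xc s G →
        g (Sum.inr 0) * z i0 + g (Sum.inr 1) * (z i1 - c * z i0) = 0 := by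
      intro z hz
      have h1 : ∑ i, (∑ v : b, g (Sum.inl v) • gr s (f v) + (g (Sum.inr 0) • gr s L0 +
        g (Sum.inr 1) • gr s L1 + g (Sum.inr 2) • gr s G)) i * z i = 0 := by
        rw [hg']
        simp
      have h2 : ∀ (w : σ → k) (a : k), ∑ i, (a • w) i * z i = a * ∑ i, w i * z i := by
        intro w a
        rw [Finset.mul_sum]
        refine Finset.sum_congr rfl fun i _ => ?_
        rw [Pi.smul_apply, smul_eq_mul, mul_assoc]
      have h3 : ∀ (w w' : σ → k), ∑ i, (w + w') i * z i = ∑ i, w i * z i + ∑ i, w' i * z i := by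
        intro w w'
        rw [← Finset.sum_add_distrib]
        refine Finset.sum_congr rfl fun i _ => ?_
        rw [Pi.add_apply, add_mul]
      have h4 : ∑ i, (∑ v : b, g (Sum.inl v) • gr s (f v)) i * z i = 0 := by
        have h5 : ∀ i, (∑ v : b, g (Sum.inl v) • gr s (f v)) i * z i =
            ∑ v : b, (g (Sum.inl v) • gr s (f v)) i * z i := by
          intro i
          rw [Finset.sum_apply, Finset.sum_mul]
        rw [Finset.sum_congr rfl fun i _ => h5 i, Finset.sum_comm]
        refine Finset.sum_eq_zero fun v _ => ?_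
        rw [h2]
        have h6 : ∑ i, gr s (f v) i * z i = 0 := hz.1 (f v) (hf0 v)
        rw [h6, mul_zero]
      rw [h3, h3, h3, h4, h2, h2, h2, zero_add] at h1
      have h7 : ∑ i, gr s L0 i * z i = z i0 := gL0 z
      have h8 : ∑ i, gr s L1 i * z i = z i1 - c * z i0 := gL1 z
      have h9 : ∑ i, gr s G i * z i = 0 := hz.2
      rw [h7, h8, h9, mul_zero, add_zero] at h1
      exact h1
    have d1 := dot s hsT
    have e1 : s i1 - c * s i0 = 0 := by
      show s i1 - s i1 / s i0 * s i0 = 0
      rw [div_mul_cancel₀ _ hi0, sub_self]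
    rw [e1, mul_zero, add_zero] at d1
    have g0 : g (Sum.inr 0) = 0 := (mul_eq_zero.1 d1).resolve_right hi0
    have d2 := dot y' hy'T
    rw [g0, zero_mul, zero_add, hy'0, mul_zero, sub_zero] at d2
    have g1 : g (Sum.inr 1) = 0 := (mul_eq_zero.1 d2).resolve_right hi1
    rw [g0, g1, zero_smul, zero_smul, zero_add, zero_add] at hg'
    have h1 := (Fintype.linearIndependent_iff.1 hMli)
      (Sum.elim (fun v => g (Sum.inl v)) (fun _ => g (Sum.inr 2))) (by
        rw [Fintype.sum_sum_type]
        rw [← hg']
        congr 1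
        · refine Finset.sum_congr rfl fun v _ => ?_
          rw [hfg v]
          rfl
        · rw [Fintype.sum_unique]
          rfl)
    intro x
    rcases x with v | j
    · exact h1 (Sum.inl v)
    · fin_cases j
      · exact g0
      · exact g1
      · exact h1 (Sum.inr ())
  have hcard : Fintype.card σ = Fintype.card (b ⊕ Fin 3) := by
    rw [Fintype.card_sum, Fintype.card_fin, hn]
  let e : σ ≃ b ⊕ Fin 3 := Fintype.equivOfCardEq hcard
  have ee : ∀ x, Q (e (e.symm x)) = Q x := fun x => by rw [e.apply_symm_apply]
  refine ⟨L0, L1, fun i => Q (e i), e.symm (Sum.inr 0), e.symm (Sum.inr 1), e.symm (Sum.inr 2), ?_⟩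
  refine ⟨?_, hL0, hL1, ?_, ?_, hGs, ee _, ee _, ee _, ?_, ?_, ?_⟩
  · intro i
    show ∃ d', 1 ≤ d' ∧ (Q (e i)).IsHomogeneous d'
    rcases e i with v | j
    · refine ⟨d v, ?_, hfd v⟩
      by_contra h0
      have h1 : d v = 0 := by omega
      have h2 := hfd v
      rw [h1, ← totalDegree_zero_iff_isHomogeneous, totalDegree_eq_zero_iff_eq_C] at h2
      have h3 := hfg v
      have h4 : gr s (f v) = 0 := by
        rw [h2]
        funext i
        simp [gr]
      rw [h4] at h3
      exact hli.ne_zero v h3.symm
    · fin_cases j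
      · exact ⟨1, le_refl _, hL0⟩
      · exact ⟨1, le_refl _, hL1⟩
      · exact ⟨m, hm, hG⟩
  · show eval s (X i0) ≠ 0
    rw [eval_X]
    exact hi0
  · show eval s (X i1 - C c * X i0) = 0
    rw [map_sub, map_mul, eval_X, eval_X, eval_C]
    show s i1 - s i1 / s i0 * s i0 = 0
    rw [div_mul_cancel₀ _ hi0, sub_self]
  · refine ⟨fun h => ?_, fun h => ?_, fun h => ?_⟩ <;>
    · have := e.symm.injective h
      simp at this
  · intro i h0 h1 h2
    show aeval Xc (Q (e i)) = 0
    rcases he : e i with v | j
    · exact hf0 v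
    · exfalso
      have h3 : i = e.symm (Sum.inr j) := by rw [← he, e.symm_apply_apply]
      fin_cases j
      · exact h0 h3
      · exact h1 h3
      · exact h2 h3
  · have h2 : LinearIndependent k (Matrix.of fun i j => eval s (pderiv j (Q (e i)))).row :=
      hQ.comp e e.injective
    rw [Matrix.linearIndependent_rows_iff_isUnit, Matrix.isUnit_iff_isUnit_det] at h2
    exact h2.ne_zero

end Pool.Agent.H37.SF
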