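import Pool.Agent.H84.SF.Geo

/-!
# OSN: the local ring is noetherian
-/

set_option autoImplicit false

namespace Pool.Agent.H37.SF

open Pool.Agent.H84.SF
open MvPolynomial SC

variable {k F σ : Type} [Field k] [Field F] [Algebra k F]

theorem aeval_scale {R : Type} [CommRing R] [Algebra k R] (c : R) (x : σ → R)
    {a : MvPolynomial σ k} {d : ℕ} (ha : a.IsHomogeneous d) :
    aeval (fun i => c * x i) a = c ^ d * aeval x a := by
  rw [aeval_def, aeval_def, eval₂_eq, eval₂_eq, Finset.mul_sum]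
  refine Finset.sum_congr rfl fun m hm => ?_
  have h1 : ∑ i ∈ m.support, m i = d := by
    have h2 := ha (mem_support_iff.1 hm)
    rw [Finsupp.weight_apply, Finsupp.sum] at h2
    simpa using h2
  rw [Finset.prod_congr rfl fun i _ => mul_pow c (x i) (m i), Finset.prod_mul_distrib,
    Finset.prod_pow_eq_pow_sum, h1]
  ring

theorem pf_OSN : T_OSN := by
  intro k F σ _ _ _ _ Xc s hC hs
  obtain ⟨i0, hi0⟩ : ∃ i, s i ≠ 0 := by
    by_contra h
    push Not at h
    exact hs (funext h)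
  have ht : Xc i0 ≠ 0 := by
    intro h
    have h1 := hC.pt (X i0) (by rw [aeval_X]; exact h)
    rw [eval_X] at h1
    exact hi0 h1
  have hx : ∀ i, Xc i * (Xc i0)⁻¹ ∈ Os Xc s := by
    intro i
    refine ⟨1, X i, X i0, ⟨isHomogeneous_X _ _, isHomogeneous_X _ _, ?_⟩, ?_⟩
    · rw [aeval_X, aeval_X, mul_assoc, inv_mul_cancel₀ ht, mul_one]
    · rw [eval_X]
      exact hi0
  let x : σ → Os Xc s := fun i => ⟨Xc i * (Xc i0)⁻¹, hx i⟩
  let φ : MvPolynomial σ k →ₐ[k] Os Xc s := aeval x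
  have hφ : ∀ (a : MvPolynomial σ k) (d : ℕ), a.IsHomogeneous d →
      ((φ a : Os Xc s) : F) = (Xc i0)⁻¹ ^ d * aeval Xc a := by
    intro a d ha
    have h1 : ((φ a : Os Xc s) : F) = aeval (fun i => (Xc i0)⁻¹ * Xc i) a := by
      have h2 : (Os Xc s).val.comp φ = aeval (fun i => (Xc i0)⁻¹ * Xc i) := by
        apply algHom_ext
        intro i
        rw [AlgHom.comp_apply]
        show ((aeval x (X i) : Os Xc s) : F) = _
        rw [aeval_X, aeval_X]
        exact mul_comm _ _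
      rw [← h2]
      rfl
    rw [h1, aeval_scale _ _ ha]
  rw [isNoetherianRing_iff_ideal_fg]
  intro J
  have h1 : ((J.comap (φ : MvPolynomial σ k →+* Os Xc s)).map
      (φ : MvPolynomial σ k →+* Os Xc s)).FG :=
    Ideal.FG.map (IsNoetherian.noetherian _) _
  have h2 : (J.comap (φ : MvPolynomial σ k →+* Os Xc s)).map
      (φ : MvPolynomial σ k →+* Os Xc s) = J := by
    apply le_antisymm Ideal.map_comap_le
    intro h hJ
    obtain ⟨d, a, b, ⟨ha, hb, he⟩, hbs⟩ := h.2
    have hb0 : aeval Xc b ≠ 0 := fun h0 => hbs (hC.pt b h0)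
    have e1 : h * φ b = φ a := by
      apply Subtype.ext
      show (h : F) * ((φ b : Os Xc s) : F) = _
      rw [hφ a d ha, hφ b d hb, ← he]
      ring
    have hu : Xc i0 ^ d * (aeval Xc b)⁻¹ ∈ Os Xc s := by
      refine ⟨d, X i0 ^ d, b, ⟨?_, hb, ?_⟩, hbs⟩
      · have := (isHomogeneous_X k i0).pow d
        rwa [one_mul] at this
      · rw [map_pow, aeval_X, mul_assoc, inv_mul_cancel₀ hb0, mul_one]
    have e2 : h = ⟨_, hu⟩ * φ a := by
      rw [← e1]
      apply Subtype.ext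
      show (h : F) = Xc i0 ^ d * (aeval Xc b)⁻¹ * ((h : F) * ((φ b : Os Xc s) : F))
      rw [hφ b d hb, inv_pow]
      have h3 : Xc i0 ^ d ≠ 0 := pow_ne_zero _ ht
      field_simp
    rw [e2]
    apply Ideal.mul_mem_left
    apply Ideal.mem_map_of_mem (φ : MvPolynomial σ k →+* Os Xc s)
    rw [Ideal.mem_comap]
    show φ a ∈ J
    rw [← e1]
    exact J.mul_mem_right _ hJ
  rw [h2] at h1
  exact h1

end Pool.Agent.H37.SF
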