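import Pool.Agent.H3.SF.Tg2

/-!
# MP_70ba79_ag, THEOREM S, row SCD: scaling of the data of the chart
-/

set_option autoImplicit false

open MvPolynomial SC Pool.Agent.H27.LV
open Pool.Agent.H84.SM (dp cr dt)
open Pool.Agent.H92.SF Pool.Agent.H3.SF

namespace Pool.Agent.H37.SF

theorem pf_SCD  : T_SCD := by
  intro k K _ _ _ _ m x g G H θ c hm hc hD hG hg
  obtain ⟨n, rfl⟩ : ∃ n, m = n + 2 := ⟨m - 2, by omega⟩
  have e1 : n + 2 - 1 = n + 1 := rfl
  have e2 : n + 2 - 2 = n := rfl
  rw [e1, e2]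
  obtain ⟨h1, h2, h3⟩ := hD
  simp only [dp, Fin.sum_univ_three] at h1 h2 hG hg
  push_cast at h1 h2
  have hpow : ∀ r : ℕ, θ (c ^ (r + 1)) = (r + 1) * c ^ r * θ c := by
    intro r
    rw [Derivation.leibniz_pow]
    simp
    ring
  refine ⟨⟨?_, ?_, ?_⟩, ?_, ?_⟩
  · simp only [dp, Fin.sum_univ_three]
    push_cast
    linear_combination c ^ (n + 2) * h1
  · intro i
    simp only [Fin.sum_univ_three]
    push_cast
    linear_combination c ^ (n + 1) * h2 i
  · intro i j
    rw [h3 i j]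
  · rw [Derivation.leibniz, hpow (n + 1), hG]
    simp only [Fin.sum_univ_three, Derivation.leibniz, smul_eq_mul]
    push_cast
    linear_combination (-c ^ (n + 1) * θ c) * h1
  · intro i
    simp only [Fin.sum_univ_three, Derivation.leibniz, smul_eq_mul]
    rw [hpow n, hg i]
    linear_combination (-c ^ n * θ c) * h2 i

end Pool.Agent.H37.SF
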