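import Pool.Agent.H3.SF.Tg2
import Pool.Agent.H62.HIL.Dim2
import Pool.Agent.H27.LV.Curve

/-!
# MP_70ba79_ag, THEOREM S, row VLI: normalised orders of integral homogeneous elements
-/

set_option autoImplicit false

open MvPolynomial SC Pool.Agent.H27.LV
open Pool.Agent.H84.SM (dp cr dt)
open Pool.Agent.H92.SF Pool.Agent.H3.SF

namespace Pool.Agent.H37.SF

section

variable {k K : Type} [Field k] [Field K] [Algebra k K] (v : DV k K)

private theorem geP {t : ℤ} {x : K} (h : ge v t x) (n : ℕ) : ge v (n * t) (x ^ n) := by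
  induction n with
  | zero => simpa using ge_one v
  | succ n ih =>
    rw [pow_succ]
    have h1 := ih.mul h
    refine h1.mono ?_
    push_cast
    linarith

private theorem ge_pole (x : Fin 3 → K) (i : Fin 3) : ge v (-(poleOrder v x : ℤ)) (x i) := by
  right
  have h : (-(v.ord (x i))).toNat ≤ poleOrder v x := by
    unfold poleOrder
    exact Finset.le_sup (f := fun i => (-(v.ord (x i))).toNat) (Finset.mem_univ i)
  omega

private theorem ge_form (x : Fin 3 → K) (Q : MvPolynomial (Fin 3) k) (d : ℕ)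
    (hQ : Q.IsHomogeneous d) : ge v (-(d * (poleOrder v x : ℤ))) (aeval x Q) := by
  rw [aeval_def, eval₂_eq']
  refine ge_sum v _ _ _ fun m hm => ?_
  rw [mem_support_iff] at hm
  have h1 : m 0 + m 1 + m 2 = d := by
    have h2 := hQ hm
    rw [Finsupp.weight_apply, Finsupp.sum_fintype _ _ (by simp)] at h2
    simpa [Fin.sum_univ_three] using h2
  rw [Fin.prod_univ_three]
  have h3 := (ge_const v (coeff m Q)).mul
    (((geP v (ge_pole v x 0) (m 0)).mul (geP v (ge_pole v x 1) (m 1))).mul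
      (geP v (ge_pole v x 2) (m 2)))
  refine h3.mono ?_
  rw [← h1]
  push_cast
  linarith

end

theorem pf_VLI (hVLA : T_VLA) (hSF1 : T_SF1) (hNGD : T_NGD) : T_VLI := by
  classical
  intro k F K _ _ _ _ _ _ _ u dd δ j0 c0 J hS φ x hx _ v e a b ha hae hab hb
  obtain ⟨hHd, hvi, -⟩ := hSF1 k F u dd δ j0 c0 J hS
  have : CharZero F := charZero_of_injective_algebraMap (algebraMap k F).injective
  -- the element as an element of `Bb`
  obtain ⟨aB, haB⟩ : ∃ aB : Bb k u, (aB : F) = a := ⟨⟨a, ha⟩, rfl⟩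
  choose uB huB using fun i => (⟨⟨u i, hvi i⟩, rfl⟩ : ∃ y : Bb k u, (y : F) = u i)
  have hφa : φ aB = b := by
    obtain ⟨h1, -, -, h4, -⟩ := hVLA k F K u φ
    have h5 := h4 aB
    rw [haB] at h5
    exact h1 a _ _ h5 hab
  have hφu : ∀ i, φ (uB i) = x i := fun i => hx i (uB i) (huB i)
  -- the relation
  have hE : ∀ i, Hm k (eu u dd) 1 (u i) := by
    intro i
    unfold Hm
    rw [hHd.eul i]
    simp
  obtain ⟨n, c, hc, hrel⟩ := Pool.Agent.H62.HIL.hom_relation hE (a := a) (t := e) ⟨ha, hae⟩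
  have hval : ∀ p : MvPolynomial (Fin 3) k, ((aeval uB p : Bb k u) : F) = aeval u p := by
    intro p
    have h1 := (aeval_unique ((Bb k u).val.comp (aeval uB : MvPolynomial (Fin 3) k →ₐ[k] Bb k u)))
    have h2 := AlgHom.congr_fun h1 p
    rw [AlgHom.comp_apply] at h2
    rw [Subalgebra.coe_val] at h2
    rw [h2]
    congr 2
    funext i
    simp [huB]
  have hφp : ∀ p : MvPolynomial (Fin 3) k, φ (aeval uB p) = aeval x p := by
    intro p
    have h1 := (aeval_unique (φ.comp (aeval uB : MvPolynomial (Fin 3) k →ₐ[k] Bb k u)))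
    have h2 := AlgHom.congr_fun h1 p
    rw [AlgHom.comp_apply] at h2
    rw [h2]
    congr 2
    funext i
    simp [hφu]
  have hrelB : aB ^ n + ∑ i ∈ Finset.range n, aeval uB (c i) * aB ^ i = 0 := by
    apply Subtype.ext
    have h3 : ((aB ^ n + ∑ i ∈ Finset.range n, aeval uB (c i) * aB ^ i : Bb k u) : F) =
        a ^ n + ∑ i ∈ Finset.range n, aeval u (c i) * a ^ i := by
      rw [← haB]
      simp [hval]
    rw [h3, hrel]
    rfl
  have hrelK : b ^ n + ∑ i ∈ Finset.range n, aeval x (c i) * b ^ i = 0 := by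
    have h3 := congrArg φ hrelB
    rw [map_add, map_pow, map_sum, map_zero, hφa] at h3
    rw [← h3]
    congr 1
    refine Finset.sum_congr rfl fun i _ => ?_
    rw [map_mul, map_pow, hφp, hφa]
  -- the estimate
  obtain ⟨p, hp⟩ : ∃ p : ℤ, p = (poleOrder v x : ℤ) := ⟨_, rfl⟩
  unfold nv
  rw [← hp]
  by_contra hcon
  push Not at hcon
  have hge : ge v (n * v.ord b + 1) (∑ i ∈ Finset.range n, aeval x (c i) * b ^ i) := by
    refine ge_sum v _ _ _ fun i hi => ?_
    rw [Finset.mem_range] at hi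
    obtain ⟨hc1, hc2⟩ := hc i hi
    obtain ⟨j, hj⟩ : ∃ j, n = i + (j + 1) := ⟨n - i - 1, by omega⟩
    have hj2 : (n : ℤ) - i = j + 1 := by
      rw [hj]
      push_cast
      ring
    rcases le_or_gt 0 (((n : ℤ) - i) * e) with h0 | h0
    · have h2 := (ge_form v x (c i) _ (hc1 h0)).mul (geP v (ge_of_ord v (x := b)) i)
      refine h2.mono ?_
      rw [← hp, Int.toNat_of_nonneg h0, hj2]
      have h3 : (n : ℤ) = i + (j + 1) := by linarith
      rw [h3]
      have h4 : 0 ≤ ((j : ℤ) + 1) * (-(v.ord b + e * p) - 1) :=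
        mul_nonneg (by positivity) (by linarith)
      nlinarith
    · rw [hc2 h0, map_zero, zero_mul]
      exact ge_zero v _
  have h5 : ∑ i ∈ Finset.range n, aeval x (c i) * b ^ i = -b ^ n := by
    linear_combination hrelK
  rw [h5] at hge
  rcases hge with h | h
  · exact pow_ne_zero _ hb (neg_eq_zero.mp h)
  · rw [v.ord_neg, v.ord_pow] at h
    omega

end Pool.Agent.H37.SF
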